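import Mathlib

namespace Pool.Agent.MP_0a7e48_nt.H35

/-- The finite regular continued fraction `[b_1; b_2 : ... : b_k]`. -/
def cf : List ℕ → ℚ
  | [] => 0
  | [b] => b
  | b :: c :: l => b + 1 / cf (c :: l)

/-- The product `M_(a_1) ... M_(a_k)`. -/
def MP (P : List ℕ) : Matrix (Fin 2) (Fin 2) ℤ :=
  (P.map fun a : ℕ => !![0, 1; 1, (a : ℤ)]).prod

/-- `M` is `GL(2, Z)`-conjugate to `M_P` or to `-M_P`. -/
def IsLLS (M : Matrix (Fin 2) (Fin 2) ℤ) (P : List ℕ) : Prop :=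
  ∃ g : GL (Fin 2) ℤ, g.val * M * (g⁻¹).val = MP P ∨ g.val * M * (g⁻¹).val = -MP P

/-- One move of the reduction algorithm. A state is the number of the step about to be
performed (`0` means halted) together with the current matrix `(p r; q s)`. -/
noncomputable def step (x : ℕ × Matrix (Fin 2) (Fin 2) ℤ) : ℕ × Matrix (Fin 2) (Fin 2) ℤ :=
  let M := x.2
  let p := M 0 0
  let r := M 0 1
  let q := M 1 0
  let s := M 1 1
  let C : Matrix (Fin 2) (Fin 2) ℤ := !![1, -⌊(p : ℚ) / (q : ℚ)⌋; 0, 1]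
  let D : Matrix (Fin 2) (Fin 2) ℤ := !![-1, 1; 0, 1]
  if x.1 = 1 then (2, if q < 0 then -M else M)
  else if x.1 = 2 then (3, C * M * C⁻¹)
  else if x.1 = 3 then
    if q = 1 then (0, M)
    else if 1 < q ∧ q < s then (0, M)
    else if 1 < q ∧ s < -q then (3, -(D * M * D⁻¹))
    else if 1 < q ∧ |s| < q then (1, !![s, q; r, p])
    else x
  else x

/-- The number `#_N(P)`. -/
noncomputable def count (N : ℕ) (P : List ℕ) : ℕ :=
  Set.ncard {M : Matrix (Fin 2) (Fin 2) ℤ | M.det = 1 ∧ (∀ i j, |M i j| ≤ N) ∧ IsLLS M P ∧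
    ∃ (R : Matrix (Fin 2) (Fin 2) ℤ) (t : ℕ), step^[t] (1, M) = (0, R) ∧
      ((∃ a₂, P = [1, a₂]) → R 0 0 = 0 ∧ R 1 0 = 1) ∧
      ((¬ ∃ a₂, P = [1, a₂]) → R 0 0 ≠ 0 ∧ (R 1 0 : ℚ) / (R 0 0 : ℚ) = cf P.dropLast)}

/-- The Gauss-Kuzmin frequency of a sequence. -/
noncomputable def GK (Q : List ℕ) : ℝ :=
  let β : ℝ := cf Q
  let γ : ℝ := cf (Q.dropLast ++ [Q.getLastD 0 + 1])
  Real.logb 2 (γ * (1 + β) / (β * (1 + γ)))

end Pool.Agent.MP_0a7e48_nt.H35
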