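import Mathlib
import Pool.Agent.MP_0a7e48_nt.H35.Defs

namespace Pool.Agent.MP_0a7e48_nt.H35

abbrev Mat := Matrix (Fin 2) (Fin 2) ℤ

theorem step1_neg {p r q s : ℤ} (hq : q < 0) :
    step (1, !![p, r; q, s]) = (2, !![-p, -r; -q, -s]) := by
  simp [step, hq]

theorem step1_pos {p r q s : ℤ} (hq : 0 < q) :
    step (1, !![p, r; q, s]) = (2, !![p, r; q, s]) := by
  simp [step, hq.not_gt]

theorem step2 {p r q s : ℤ} (k : ℤ) (hq : 0 < q) (h1 : k * q ≤ p) (h2 : p < (k + 1) * q) :
    step (2, !![p, r; q, s]) = (3, !![p - k * q, r - k * s + k * (p - k * q); q, s + k * q]) := by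
  have hq' : (0 : ℚ) < q := by exact_mod_cast hq
  have hk : ⌊(p : ℚ) / (q : ℚ)⌋ = k := by
    rw [Int.floor_eq_iff, le_div_iff₀ hq', div_lt_iff₀ hq']
    exact ⟨by exact_mod_cast h1, by exact_mod_cast h2⟩
  have hinv : (!![1, -k; 0, 1] : Mat)⁻¹ = !![1, k; 0, 1] := by
    apply Matrix.inv_eq_right_inv
    ext i j; fin_cases i <;> fin_cases j <;> simp [Matrix.mul_apply, Fin.sum_univ_two]
  simp only [step, Matrix.of_apply, Matrix.cons_val', Matrix.cons_val_zero, Matrix.cons_val_one,
    Matrix.cons_val_fin_one, hk, hinv]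
  simp only [OfNat.ofNat_ne_one, if_false, if_true, Prod.mk.injEq, true_and]
  ext i j; fin_cases i <;> fin_cases j <;> simp [Matrix.mul_apply, Fin.sum_univ_two] <;> ring

theorem step3_d {p r q s : ℤ} (hq : 1 < q) (h1 : s < q) (h2 : -q < s) :
    step (3, !![p, r; q, s]) = (1, !![s, q; r, p]) := by
  have h3 : |s| < q := abs_lt.mpr ⟨h2, h1⟩
  simp [step, hq, hq.ne', h1.not_gt, h2.not_gt, h3]

theorem step3_b {p r q s : ℤ} (hq : 1 < q) (h1 : q < s) :
    step (3, !![p, r; q, s]) = (0, !![p, r; q, s]) := by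
  simp [step, hq, h1]

/-- States closed under the inverse move. -/
def InF (Z : Mat) : Prop := 0 < Z 0 0 ∧ Z 0 0 < Z 1 0 ∧ Z 1 1 < 0 ∧ -Z 1 0 < Z 1 1 ∧ Z 0 1 < 0

def back (k : ℤ) (Z : Mat) : Mat :=
  !![k * Z 1 0 - Z 1 1, -Z 1 0;
    k ^ 2 * Z 1 0 - k * (Z 1 1 - Z 0 0) - Z 0 1, -(Z 0 0 + k * Z 1 0)]

theorem back_inF {k : ℤ} (hk : 1 ≤ k) {Z : Mat} (h : InF Z) : InF (back k Z) := by
  obtain ⟨h1, h2, h3, h4, h5⟩ := h
  simp only [InF, back, Matrix.of_apply, Matrix.cons_val', Matrix.cons_val_zero,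
    Matrix.cons_val_one, Matrix.cons_val_fin_one]
  generalize Z 0 0 = p at *
  generalize Z 0 1 = r at *
  generalize Z 1 0 = q at *
  generalize Z 1 1 = s at *
  obtain ⟨j, rfl⟩ : ∃ j, k = j + 1 := ⟨k - 1, by ring⟩
  have hj : 0 ≤ j := by omega
  have a1 : 0 ≤ j * q := mul_nonneg hj (by omega)
  have a2 : 0 ≤ j * (j * q) := mul_nonneg hj a1
  have a3 : 0 ≤ j * (-s) := mul_nonneg hj (by omega)
  have a4 : 0 ≤ j * p := mul_nonneg hj (by omega)
  refine ⟨by nlinarith, by nlinarith, by nlinarith, by nlinarith, by omega⟩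

theorem step_back {k : ℤ} {Z : Mat} (hZ1 : 0 ≤ Z 0 0) (hZ2 : Z 0 0 < Z 1 0)
    (h : InF (back k Z)) : step^[3] (3, back k Z) = (3, Z) := by
  obtain ⟨h1, h2, h3, h4, h5⟩ := h
  simp only [back, Matrix.of_apply, Matrix.cons_val', Matrix.cons_val_zero,
    Matrix.cons_val_one, Matrix.cons_val_fin_one] at h1 h2 h3 h4 h5
  show step (step (step (3, back k Z))) = _
  rw [back, step3_d (by omega) (by omega) h4, step1_neg h5,
    step2 k (by omega) (by nlinarith) (by nlinarith)]
  congr 1
  ext i j; fin_cases i <;> fin_cases j <;> simp <;> ring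

theorem step_start {Z : Mat} (h : InF Z) : step^[2] (1, Z) = (3, Z) := by
  obtain ⟨h1, h2, h3, h4, h5⟩ := h
  show step (step (1, Z)) = _
  rw [Matrix.eta_fin_two Z, step1_pos (by omega), step2 0 (by omega) (by omega) (by omega)]
  simp

def R2 (a : ℕ) : Mat := !![1, 1; a, a + 1]

def XOf (a : ℕ) : List ℕ → Mat
  | [] => back 3 (R2 a)
  | k :: l => back (k + 1) (XOf a l)

def hOf : List ℕ → Mat
  | [] => 1
  | k :: l => !![0, 1; 1, (k + 1 : ℤ)] * hOf l

theorem XOf_inF {a : ℕ} (ha : 2 ≤ a) (l : List ℕ) : InF (XOf a l) := by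
  induction l with
  | nil =>
    have : (2 : ℤ) ≤ a := by exact_mod_cast ha
    simp only [InF, XOf, back, R2, Matrix.of_apply, Matrix.cons_val', Matrix.cons_val_zero,
      Matrix.cons_val_one, Matrix.cons_val_fin_one]
    omega
  | cons k l ih => exact back_inF (by omega) ih

theorem XOf_out {a : ℕ} (ha : 2 ≤ a) (l : List ℕ) : ∃ t, step^[t] (3, XOf a l) = (0, R2 a) := by
  have ha' : (2 : ℤ) ≤ a := by exact_mod_cast ha
  induction l with
  | nil =>
    refine ⟨1 + 3, ?_⟩
    rw [Function.iterate_add_apply, XOf,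
      step_back (by simp [R2]) (by simp [R2]; omega) (XOf_inF ha [])]
    exact step3_b (by omega) (by omega)
  | cons k l ih =>
    obtain ⟨t, ht⟩ := ih
    refine ⟨t + 3, ?_⟩
    have h := XOf_inF ha l
    rw [Function.iterate_add_apply, XOf, step_back h.1.le h.2.1 (XOf_inF ha (k :: l)), ht]

theorem back_inj {k k' : ℤ} {Z Z' : Mat} (h1 : 0 ≤ Z 0 0) (h2 : Z 0 0 < Z 1 0)
    (h1' : 0 ≤ Z' 0 0) (h2' : Z' 0 0 < Z' 1 0) (h : back k Z = back k' Z') :
    k = k' ∧ Z = Z' := by
  have e00 := congrFun (congrFun h 0) 0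
  have e01 := congrFun (congrFun h 0) 1
  have e10 := congrFun (congrFun h 1) 0
  have e11 := congrFun (congrFun h 1) 1
  simp only [back, Matrix.of_apply, Matrix.cons_val', Matrix.cons_val_zero,
    Matrix.cons_val_one, Matrix.cons_val_fin_one] at e00 e01 e10 e11
  have hq : Z 1 0 = Z' 1 0 := by omega
  rw [← hq] at e00 e10 e11 h2'
  have hk : k = k' := by
    rcases lt_trichotomy k k' with hk | hk | hk
    · nlinarith
    · exact hk
    · nlinarith
  subst hk
  have hp : Z 0 0 = Z' 0 0 := by omega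
  have hs : Z 1 1 = Z' 1 1 := by omega
  rw [← hp, ← hs] at e10
  have hr : Z 0 1 = Z' 0 1 := by omega
  refine ⟨rfl, ?_⟩
  ext i j; fin_cases i <;> fin_cases j <;> assumption

theorem XOf_inj {a : ℕ} (ha : 2 ≤ a) : ∀ l l' : List ℕ, XOf a l = XOf a l' → l = l' := by
  have ha' : (2 : ℤ) ≤ a := by exact_mod_cast ha
  have key : ∀ k l, XOf a [] ≠ XOf a (k :: l) := by
    intro k l h
    have hF := XOf_inF ha l
    have := (back_inj (by simp [R2]) (by simp [R2]; omega) hF.1.le hF.2.1 h).2
    have h3 := hF.2.2.1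
    rw [← this] at h3
    simp [R2] at h3
    omega
  intro l
  induction l with
  | nil =>
    intro l' h
    cases l' with
    | nil => rfl
    | cons k l' => exact absurd h (key k l')
  | cons k l ih =>
    intro l' h
    cases l' with
    | nil => exact absurd h.symm (key k l)
    | cons k' l' =>
      have hF := XOf_inF ha l
      have hF' := XOf_inF ha l'
      obtain ⟨h1, h2⟩ := back_inj hF.1.le hF.2.1 hF'.1.le hF'.2.1 h
      have : k = k' := by omega
      rw [this, ih l' h2]

theorem back_eq (k : ℤ) (Z : Mat) :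
    back k Z = !![0, 1; 1, k] * Z * Matrix.adjugate !![0, 1; 1, k] := by
  rw [Matrix.adjugate_fin_two_of, back]
  conv_rhs => rw [Matrix.eta_fin_two Z, Matrix.mul_fin_two, Matrix.mul_fin_two]
  ext i j; fin_cases i <;> fin_cases j <;> simp <;> ring

theorem XOf_eq (a : ℕ) (l : List ℕ) :
    XOf a l = hOf l * XOf a [] * Matrix.adjugate (hOf l) := by
  induction l with
  | nil => simp [hOf]
  | cons k l ih =>
    rw [show XOf a (k :: l) = back (k + 1) (XOf a l) from rfl, back_eq, ih, hOf,
      Matrix.adjugate_mul_distrib]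
    simp only [Matrix.mul_assoc]

theorem exists_hOf (n : ℕ) : ∀ α β γ δ : ℤ, γ < n → 0 ≤ α → α ≤ γ → β ≤ δ → α ≤ β → γ ≤ δ →
    (α * δ - β * γ = 1 ∨ α * δ - β * γ = -1) → ∃ l, hOf l = !![α, β; γ, δ] := by
  induction n with
  | zero => intro α β γ δ h1 h2 h3; omega
  | succ n ih =>
    intro α β γ δ hn hα hαγ hβδ hαβ hγδ hdet
    rcases hα.eq_or_lt with h0 | hpos
    · subst h0
      have hβγ : β * γ = 1 := by
        have : 0 ≤ β * γ := mul_nonneg hαβ hαγ
        omega
      have hβ : β = 1 := Int.eq_one_of_mul_eq_one_right hαβ hβγ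
      have hγ : γ = 1 := Int.eq_one_of_mul_eq_one_left hαγ hβγ
      subst hβ hγ
      refine ⟨[(δ - 1).toNat], ?_⟩
      have : (((δ - 1).toNat : ℕ) : ℤ) + 1 = δ := by omega
      simp only [hOf, this, Matrix.mul_one]
    · by_cases hγα : γ = α
      · subst hγα
        have h1 : γ * (δ - β) = 1 := by
          have : 0 ≤ γ * (δ - β) := mul_nonneg hα (by omega)
          rcases hdet with h | h <;> nlinarith
        have hγ : γ = 1 := Int.eq_one_of_mul_eq_one_right hα h1
        subst hγ
        have hδ : δ = β + 1 := by omega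
        subst hδ
        refine ⟨[0, (β - 1).toNat], ?_⟩
        have : (((β - 1).toNat : ℕ) : ℤ) + 1 = β := by omega
        simp only [hOf, this, Matrix.mul_one]
        ext i j; fin_cases i <;> fin_cases j <;> simp [Matrix.mul_apply, Fin.sum_univ_two]
        ring
      · have hβ : 0 < β := by omega
        set k := min (γ / α) (δ / β) with hk
        have hk1 : 1 ≤ k := le_min ((Int.le_ediv_iff_mul_le hpos).mpr (by omega))
          ((Int.le_ediv_iff_mul_le hβ).mpr (by omega))
        have e1 : k * α ≤ γ := (Int.le_ediv_iff_mul_le hpos).mp (min_le_left _ _)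
        have e2 : k * β ≤ δ := (Int.le_ediv_iff_mul_le hβ).mp (min_le_right _ _)
        have e3 : γ < (k + 1) * α ∨ δ < (k + 1) * β := by
          rcases min_choice (γ / α) (δ / β) with h | h
          · left; rw [hk, h]; exact Int.lt_ediv_add_one_mul_self γ hpos
          · right; rw [hk, h]; exact Int.lt_ediv_add_one_mul_self δ hβ
        obtain ⟨α', hα'⟩ : ∃ α', α' = γ - k * α := ⟨_, rfl⟩
        obtain ⟨β', hβ'⟩ : ∃ β', β' = δ - k * β := ⟨_, rfl⟩
        have hγ' : γ = α' + k * α := by omega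
        have hδ' : δ = β' + k * β := by omega
        have hdet' : α' * β - β' * α = 1 ∨ α' * β - β' * α = -1 := by
          rw [hα', hβ']
          rcases hdet with h | h
          · right; linear_combination -h
          · left; linear_combination -h
        have f1 : 0 ≤ α' := by omega
        have f2 : 0 ≤ β' := by omega
        have e3' : α' < α ∨ β' < β := by
          rcases e3 with h | h
          · left; linarith
          · right; linarith
        have f3 : α' ≤ α := by
          by_contra hc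
          have : β' < β := by omega
          rcases hdet' with h | h <;> nlinarith
        have f4 : β' ≤ β := by
          by_contra hc
          have : α' < α := by omega
          rcases hdet' with h | h <;> nlinarith
        have f5 : α' ≤ β' := by
          by_contra hc
          have g1 : β' * α ≤ β' * β := mul_le_mul_of_nonneg_left hαβ f2
          have g2 : (β' + 1) * β ≤ α' * β := mul_le_mul_of_nonneg_right (by omega) hβ.le
          have g3 : β = 1 := by rcases hdet' with h | h <;> nlinarith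
          have g4 : α = 1 := by omega
          subst g3 g4
          omega
        obtain ⟨l, hl⟩ := ih α' β' α β (by omega) f1 f3 f4 f5 hαβ hdet'
        refine ⟨(k - 1).toNat :: l, ?_⟩
        have : (((k - 1).toNat : ℕ) : ℤ) + 1 = k := by omega
        rw [hOf, this, hl, hγ', hδ']
        ext i j; fin_cases i <;> fin_cases j <;> simp [Matrix.mul_apply, Fin.sum_univ_two]

end Pool.Agent.MP_0a7e48_nt.H35
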