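import Mathlib
import Pool.Agent.MP_0a7e48_nt.H35.Tree

namespace Pool.Agent.MP_0a7e48_nt.H35

open Filter Topology

theorem box_finite (Y : ℤ) : {M : Mat | ∀ i j, |M i j| ≤ Y}.Finite := by
  have h : {M : Fin 2 → Fin 2 → ℤ | ∀ i, M i ∈ {v : Fin 2 → ℤ | ∀ j, v j ∈ Set.Icc (-Y) Y}}.Finite :=
    Set.Finite.pi' fun _ => Set.Finite.pi' fun _ => Set.finite_Icc _ _
  exact h.subset fun M hM i j => abs_le.mp (hM i j)

def Gs (X : ℕ) : Set Mat := {g | (g.det = 1 ∨ g.det = -1) ∧ ∀ i j, g i j ^ 2 ≤ X}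

theorem Gs_finite (X : ℕ) : (Gs X).Finite :=
  (box_finite X).subset fun g hg i j => by
    have := hg.2 i j
    have h2 : |g i j| ≤ g i j ^ 2 := by
      rw [← sq_abs]; exact Int.le_self_sq _
    omega

def R1 (a : ℕ) : Mat := !![0, -1; 1, a + 2]

def Rep (a : ℕ) (ε : ℤ) (M g : Mat) : Prop :=
  (g.det = 1 ∨ g.det = -1) ∧ M * g = ε • (g * R1 a)

theorem rep_of_LLS {a : ℕ} {M : Mat} {P : List ℕ} {U : Mat} (hU : U.det = 1 ∨ U.det = -1)
    (hP : MP P * U = U * R1 a) (h : IsLLS M P) : ∃ ε g, (ε = 1 ∨ ε = -1) ∧ Rep a ε M g := by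
  obtain ⟨g, hg⟩ := h
  have hd : (g⁻¹).val.det = 1 ∨ (g⁻¹).val.det = -1 :=
    Int.isUnit_iff.mp ((Matrix.isUnit_iff_isUnit_det _).mp (g⁻¹).isUnit)
  have hdet : ((g⁻¹).val * U).det = 1 ∨ ((g⁻¹).val * U).det = -1 := by
    rw [Matrix.det_mul]
    rcases hd with h | h <;> rcases hU with h' | h' <;> rw [h, h'] <;> simp
  have key : M * ((g⁻¹).val * U) = (g⁻¹).val * (g.val * M * (g⁻¹).val) * U := by
    simp only [← Matrix.mul_assoc, Units.inv_mul, Matrix.one_mul]
  rcases hg with hg | hg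
  · refine ⟨1, _, Or.inl rfl, hdet, ?_⟩
    rw [key, hg, one_smul, Matrix.mul_assoc, hP, Matrix.mul_assoc]
  · refine ⟨-1, _, Or.inr rfl, hdet, ?_⟩
    rw [key, hg, neg_smul, one_smul, Matrix.mul_neg, Matrix.neg_mul, Matrix.mul_assoc, hP,
      Matrix.mul_assoc]

theorem MP_two (a b : ℕ) : MP [a, b] = !![1, (b : ℤ); (a : ℤ), (a : ℤ) * b + 1] := by
  simp only [MP, List.map, List.prod_cons, List.prod_nil, Matrix.mul_one, Matrix.mul_fin_two]
  ext i j; fin_cases i <;> fin_cases j <;> simp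
  ring

theorem rep1 {a : ℕ} {M : Mat} (h : IsLLS M [1, a]) : ∃ ε g, (ε = 1 ∨ ε = -1) ∧ Rep a ε M g := by
  refine rep_of_LLS (U := !![1, 1; 0, 1]) (by simp [Matrix.det_fin_two]) ?_ h
  rw [MP_two, R1, Matrix.mul_fin_two, Matrix.mul_fin_two]
  ext i j; fin_cases i <;> fin_cases j <;> simp <;> ring

theorem rep2 {a : ℕ} {M : Mat} (h : IsLLS M [a, 1]) : ∃ ε g, (ε = 1 ∨ ε = -1) ∧ Rep a ε M g := by
  refine rep_of_LLS (U := !![0, 1; 1, a + 1]) (by simp [Matrix.det_fin_two]) ?_ h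
  rw [MP_two, R1, Matrix.mul_fin_two, Matrix.mul_fin_two]
  ext i j; fin_cases i <;> fin_cases j <;> simp <;> ring

theorem norm_ineq {t n0 n1 c E : ℤ} (ht : 8 ≤ t) (h0 : 0 ≤ n0) (h1 : 0 ≤ n1)
    (hl : n0 * n1 - c ^ 2 = 1) (m0 : 2 * c ≤ t * n0) (m1 : 2 * c ≤ t * n1)
    (hE : |n0 + n1 - t * c| = E) : n0 + n1 ≤ 3 * E := by
  have hE1 : n0 + n1 - t * c ≤ E := hE ▸ le_abs_self _
  have hE2 : -(n0 + n1 - t * c) ≤ E := hE ▸ neg_le_abs _
  rcases le_or_gt c 0 with hc | hc
  · nlinarith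
  · have key : ∀ u v : ℤ, 0 ≤ u → u ≤ v → u * v - c ^ 2 = 1 → 2 * c ≤ t * u →
        2 * (u + v) ≤ (t + 4) * c := by
      intro u v hu huv h hm
      have hu1 : 1 ≤ u := by
        by_contra hh
        have : u = 0 := by omega
        subst this
        nlinarith
      have huc : u ≤ c := by
        by_contra hh
        nlinarith
      have : 2 * v ≤ t * c + 2 := by
        by_contra hh
        have h3 : t * c + 3 ≤ 2 * v := by omega
        nlinarith
      nlinarith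
    have h2 : 2 * (n0 + n1) ≤ (t + 4) * c := by
      rcases le_total n0 n1 with h | h
      · exact key n0 n1 h0 h hl m0
      · have := key n1 n0 h1 h (by linarith) m1
        linarith
    nlinarith

theorem rep_small {a : ℕ} (ha : 6 ≤ a) {ε : ℤ} (hε : ε = 1 ∨ ε = -1) {M g : Mat} {N : ℕ}
    (hM : ∀ i j, |M i j| ≤ N) (h : Rep a ε M g) : ∃ g', Rep a ε M g' ∧ g' ∈ Gs (6 * N) := by
  classical
  let nm : Mat → ℕ := fun g => (g 0 0 ^ 2 + g 0 1 ^ 2 + g 1 0 ^ 2 + g 1 1 ^ 2).toNat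
  obtain ⟨g, hg, hmin⟩ := (measure nm).wf.has_min {g | Rep a ε M g} ⟨g, h⟩
  have hmin' : ∀ g', Rep a ε M g' → g 0 0 ^ 2 + g 0 1 ^ 2 + g 1 0 ^ 2 + g 1 1 ^ 2 ≤
      g' 0 0 ^ 2 + g' 0 1 ^ 2 + g' 1 0 ^ 2 + g' 1 1 ^ 2 := by
    intro g' hg'
    have h1 : ¬ nm g' < nm g := hmin g' hg'
    have h2 : 0 ≤ g' 0 0 ^ 2 + g' 0 1 ^ 2 + g' 1 0 ^ 2 + g' 1 1 ^ 2 := by positivity
    simp only [nm] at h1
    omega
  have hcomm : ∀ V : Mat, V.det = 1 → R1 a * V = V * R1 a → Rep a ε M (g * V) := by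
    intro V hV hc
    refine ⟨by rw [Matrix.det_mul, hV, mul_one]; exact hg.1, ?_⟩
    rw [← Matrix.mul_assoc, hg.2, Matrix.smul_mul, Matrix.mul_assoc, hc, Matrix.mul_assoc]
  have m1 := hmin' _ (hcomm (R1 a) (by simp [R1, Matrix.det_fin_two]) rfl)
  have m2 := hmin' _ (hcomm !![a + 2, 1; -1, 0] (by simp [Matrix.det_fin_two]) (by
    rw [R1, Matrix.mul_fin_two, Matrix.mul_fin_two]
    ext i j; fin_cases i <;> fin_cases j <;> simp))
  refine ⟨g, hg, hg.1, ?_⟩
  obtain ⟨hdet, heq⟩ := hg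
  have e00 := congrFun (congrFun heq 0) 0
  have e01 := congrFun (congrFun heq 0) 1
  have e10 := congrFun (congrFun heq 1) 0
  have e11 := congrFun (congrFun heq 1) 1
  rw [Matrix.det_fin_two] at hdet
  simp only [R1, Matrix.mul_apply, Fin.sum_univ_two, Matrix.of_apply, Matrix.cons_val',
    Matrix.cons_val_zero, Matrix.cons_val_one, Matrix.cons_val_fin_one, Matrix.smul_apply,
    smul_eq_mul] at e00 e01 e10 e11 m1 m2
  have b1 := abs_le.mp (hM 1 0)
  have b2 := abs_le.mp (hM 0 1)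
  have ha' : (8 : ℤ) ≤ (a : ℤ) + 2 := by omega
  have hall : g 0 0 ^ 2 + g 1 0 ^ 2 + (g 0 1 ^ 2 + g 1 1 ^ 2) ≤ 3 * |M 1 0 - M 0 1| := by
    generalize (a : ℤ) + 2 = t at *
    generalize g 0 0 = x1 at *
    generalize g 0 1 = y1 at *
    generalize g 1 0 = x2 at *
    generalize g 1 1 = y2 at *
    have ht0 : 0 < t := by omega
    refine norm_ineq (t := t) (c := x1 * y1 + x2 * y2) ha' (by positivity) (by positivity) ?_
      ?_ ?_ ?_
    · rcases hdet with h | h
      · linear_combination (x1 * y2 - y1 * x2 + 1) * h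
      · linear_combination (x1 * y2 - y1 * x2 - 1) * h
    · refine le_of_mul_le_mul_left ?_ ht0
      nlinarith
    · refine le_of_mul_le_mul_left ?_ ht0
      nlinarith
    · have : (x1 * y2 - y1 * x2) * (M 1 0 - M 0 1) =
          ε * (x1 ^ 2 + x2 ^ 2 + (y1 ^ 2 + y2 ^ 2) - t * (x1 * y1 + x2 * y2)) := by
        linear_combination y2 * e10 - x2 * e11 + y1 * e00 - x1 * e01
      have h2 := congrArg abs this
      rw [abs_mul, abs_mul] at h2
      rcases hdet with h | h <;> rcases hε with h' | h' <;> rw [h, h'] at h2 <;>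
        simpa using h2.symm
  have habs : |M 1 0 - M 0 1| ≤ 2 * N := abs_le.mpr ⟨by omega, by omega⟩
  have s1 := sq_nonneg (g 0 0)
  have s2 := sq_nonneg (g 0 1)
  have s3 := sq_nonneg (g 1 0)
  have s4 := sq_nonneg (g 1 1)
  intro i j
  fin_cases i <;> fin_cases j <;> simp <;> omega

theorem count_le {a : ℕ} (ha : 6 ≤ a) {P : List ℕ}
    (hP : ∀ M, IsLLS M P → ∃ ε g, (ε = 1 ∨ ε = -1) ∧ Rep a ε M g) (N : ℕ) :
    count N P ≤ 2 * (Gs (6 * N)).ncard := by
  let f : ℤ × Mat → Mat := fun x => (x.1 * x.2.det) • (x.2 * R1 a * Matrix.adjugate x.2)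
  have hfin : (({1, -1} : Set ℤ) ×ˢ Gs (6 * N)).Finite := (Set.toFinite _).prod (Gs_finite _)
  have h1 : count N P ≤ (f '' (({1, -1} : Set ℤ) ×ˢ Gs (6 * N))).ncard := by
    refine Set.ncard_le_ncard ?_ (hfin.image f)
    rintro M ⟨-, hM, hL, -⟩
    obtain ⟨ε, g, hε, hg⟩ := hP M hL
    obtain ⟨g, hg, hg'⟩ := rep_small ha hε hM hg
    refine ⟨(ε, g), ⟨hε, hg'⟩, ?_⟩
    have h2 : g.det * g.det = 1 := by rcases hg.1 with h | h <;> simp [h]
    simp only [f]
    rw [mul_comm, mul_smul, ← Matrix.smul_mul, ← hg.2, Matrix.mul_assoc, Matrix.mul_adjugate,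
      Matrix.mul_smul, Matrix.mul_one, smul_smul, h2, one_smul]
  refine h1.trans ((Set.ncard_image_le hfin).trans ?_)
  rw [Set.ncard_prod, Set.ncard_pair (by norm_num)]

theorem Gs_card_le (X : ℕ) (hX : 1 ≤ X) : (Gs X).ncard ^ 2 ≤ 2916 * X ^ 3 := by
  set Y := Nat.sqrt X with hY
  have hY1 : 1 ≤ Y := Nat.le_sqrt.mpr (by omega)
  have hYX : Y ^ 2 ≤ X := Nat.sqrt_le' X
  let f : Mat → ℤ × ℤ × ℤ × ℤ := fun g =>
    (g.det, g 0 0, g 0 1, if g 0 0 = 0 then g 1 1 else g 1 0)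
  let I : Finset ℤ := Finset.Icc (-Y) Y
  have hI : I.card = 2 * Y + 1 := by simp only [I, Int.card_Icc]; omega
  have h1 : (Gs X).ncard ≤ (↑(({1, -1} : Finset ℤ) ×ˢ I ×ˢ I ×ˢ I) : Set (ℤ × ℤ × ℤ × ℤ)).ncard := by
    refine Set.ncard_le_ncard_of_injOn f ?_ ?_ (Finset.finite_toSet _)
    · rintro g ⟨hd, hg⟩
      have hb : ∀ i j, g i j ∈ I := by
        intro i j
        have h2 := hg i j
        have h3 : X < (Y + 1) ^ 2 := Nat.lt_succ_sqrt' X
        have h4 : (X : ℤ) < (Y + 1) ^ 2 := by exact_mod_cast h3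
        have h5 : |g i j| < Y + 1 := abs_lt_of_sq_lt_sq (by omega) (by positivity)
        have := abs_lt.mp h5
        simp only [I, Finset.mem_Icc]
        omega
      simp only [f, Finset.mem_coe, Finset.mem_product, Finset.mem_insert, Finset.mem_singleton]
      refine ⟨hd, hb _ _, hb _ _, ?_⟩
      split_ifs <;> exact hb _ _
    · rintro g ⟨hd, -⟩ g' - h
      simp only [f, Prod.mk.injEq] at h
      obtain ⟨h0, h1, h2, h3⟩ := h
      rw [Matrix.det_fin_two] at hd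
      rw [Matrix.det_fin_two, Matrix.det_fin_two, ← h1, ← h2] at h0
      rw [← h1] at h3
      have key : g 1 0 = g' 1 0 ∧ g 1 1 = g' 1 1 := by
        by_cases hz : g 0 0 = 0
        · rw [if_pos hz, if_pos hz] at h3
          refine ⟨?_, h3⟩
          have hne : g 0 1 ≠ 0 := by
            intro h; rw [hz, h] at hd; simp at hd
          apply mul_left_cancel₀ hne
          rw [h3] at h0; linarith
        · rw [if_neg hz, if_neg hz] at h3
          refine ⟨h3, ?_⟩
          apply mul_left_cancel₀ hz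
          rw [h3] at h0; linarith
      ext i j; fin_cases i <;> fin_cases j
      · exact h1
      · exact h2
      · exact key.1
      · exact key.2
  rw [Set.ncard_coe_finset, Finset.card_product, Finset.card_product, Finset.card_product, hI,
    Finset.card_pair (by norm_num)] at h1
  have h2 : (Gs X).ncard ≤ 54 * Y ^ 3 := by
    calc _ ≤ _ := h1
      _ ≤ 2 * ((3 * Y) * ((3 * Y) * (3 * Y))) := by gcongr <;> omega
      _ = _ := by ring
  calc (Gs X).ncard ^ 2 ≤ (54 * Y ^ 3) ^ 2 := Nat.pow_le_pow_left h2 2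
    _ = 2916 * (Y ^ 2) ^ 3 := by ring
    _ ≤ _ := by gcongr

theorem hOf_det (l : List ℕ) : (hOf l).det = 1 ∨ (hOf l).det = -1 := by
  induction l with
  | nil => simp [hOf]
  | cons k l ih =>
    rw [hOf, Matrix.det_mul, Matrix.det_fin_two_of]
    rcases ih with h | h <;> simp [h]

theorem XOf_mem {a : ℕ} (l : List ℕ) : (XOf a l).det = 1 ∧ IsLLS (XOf a l) [a, 1] := by
  let g : Mat := hOf l * !![0, 1; 1, 3]
  have hg : g.det = 1 ∨ g.det = -1 := by
    simp only [g]
    rw [Matrix.det_mul, Matrix.det_fin_two_of]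
    rcases hOf_det l with h | h <;> simp [h]
  have hX : XOf a l = g * R2 a * Matrix.adjugate g := by
    rw [XOf_eq, XOf, back_eq, Matrix.adjugate_mul_distrib]
    simp only [g, Matrix.mul_assoc]
  have hR : R2 a = MP [a, 1] := by rw [MP_two, R2]; simp
  have hgg : g.det * g.det = 1 := by rcases hg with h | h <;> simp [h]
  constructor
  · rw [hX, Matrix.det_mul, Matrix.det_mul, Matrix.det_adjugate]
    simp [R2, Matrix.det_fin_two_of, hgg]
  · have hu : IsUnit g := (Matrix.isUnit_iff_isUnit_det _).mpr (Int.isUnit_iff.mpr hg)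
    obtain ⟨u, hu⟩ := hu
    refine ⟨u⁻¹, ?_⟩
    have key : (u⁻¹).val * XOf a l * (u⁻¹⁻¹).val = g.det • MP [a, 1] := by
      rw [inv_inv, hX, ← hR, hu]
      simp only [Matrix.mul_assoc, Matrix.adjugate_mul, Matrix.mul_smul, Matrix.mul_one]
      rw [← hu, ← Matrix.mul_assoc, Units.inv_mul, Matrix.one_mul]
    rw [key]
    rcases hg with h | h <;> simp [h]

theorem Gs_le_count {a : ℕ} (ha : 2 ≤ a) (X : ℕ) :
    (Gs X).ncard ≤ 16 * count (192 * a * X) [a, 1] := by
  classical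
  let H : Mat → Mat := fun g => !![|g 0 0|, |g 0 0| + |g 0 1|; |g 0 0| + |g 1 0|,
    |g 0 0| + |g 0 1| + |g 1 0| + |g 1 1|]
  have hH : ∀ g ∈ Gs X, ∃ l, hOf l = H g := by
    rintro g ⟨hd, -⟩
    have h1 := abs_nonneg (g 0 0)
    have h2 := abs_nonneg (g 0 1)
    have h3 := abs_nonneg (g 1 0)
    have h4 := abs_nonneg (g 1 1)
    refine exists_hOf (|g 0 0| + |g 1 0| + 1).toNat _ _ _ _ (by omega) h1 (by omega) (by omega)
      (by omega) (by omega) ?_
    rw [Matrix.det_fin_two] at hd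
    have e : |g 0 0| * (|g 0 0| + |g 0 1| + |g 1 0| + |g 1 1|) -
        (|g 0 0| + |g 0 1|) * (|g 0 0| + |g 1 0|) = |g 0 0 * g 1 1| - |g 0 1 * g 1 0| := by
      rw [abs_mul, abs_mul]; ring
    rw [e]
    generalize g 0 0 * g 1 1 = u at *
    generalize g 0 1 * g 1 0 = v at *
    rcases abs_cases u with h | h <;> rcases abs_cases v with h' | h' <;> omega
  choose! L hL using hH
  set T : Set Mat := {M : Mat | M.det = 1 ∧ (∀ i j, |M i j| ≤ (192 * a * X : ℕ)) ∧ IsLLS M [a, 1] ∧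
    ∃ (R : Mat) (t : ℕ), step^[t] (1, M) = (0, R) ∧
      ((∃ a₂, [a, 1] = [1, a₂]) → R 0 0 = 0 ∧ R 1 0 = 1) ∧
      ((¬ ∃ a₂, [a, 1] = [1, a₂]) → R 0 0 ≠ 0 ∧
        (R 1 0 : ℚ) / (R 0 0 : ℚ) = cf [a, 1].dropLast)} with hT
  have hTfin : T.Finite := (box_finite _).subset fun M hM => hM.2.1
  let f : Mat → (Fin 2 → Fin 2 → Bool) × Mat := fun g =>
    (fun i j => decide (0 ≤ g i j), XOf a (L g))
  have h1 : (Gs X).ncard ≤ ((Set.univ : Set (Fin 2 → Fin 2 → Bool)) ×ˢ T).ncard := by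
    refine Set.ncard_le_ncard_of_injOn f ?_ ?_ ((Set.toFinite _).prod hTfin)
    · intro g hg
      refine ⟨trivial, (XOf_mem _).1, ?_, (XOf_mem _).2, R2 a, ?_⟩
      · simp only [f]
        rw [XOf_eq, hL g hg]
        have hb : ∀ i j i' j', |g i j| * |g i' j'| ≤ X := by
          intro i j i' j'
          have h1 := hg.2 i j
          have h2 := hg.2 i' j'
          rw [← sq_abs] at h1 h2
          nlinarith [sq_nonneg (|g i j| - |g i' j'|)]
        have hHb : ∀ i j i' j', 0 ≤ H g i j * H g i' j' ∧ H g i j * H g i' j' ≤ 16 * X := by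
          have hs : ∀ i j, 0 ≤ H g i j ∧ H g i j ≤ |g 0 0| + |g 0 1| + |g 1 0| + |g 1 1| := by
            have h1 := abs_nonneg (g 0 0)
            have h2 := abs_nonneg (g 0 1)
            have h3 := abs_nonneg (g 1 0)
            have h4 := abs_nonneg (g 1 1)
            intro i j
            fin_cases i <;> fin_cases j <;> simp [H] <;> omega
          intro i j i' j'
          refine ⟨mul_nonneg (hs _ _).1 (hs _ _).1, ?_⟩
          refine (mul_le_mul (hs _ _).2 (hs _ _).2 (hs _ _).1 (by positivity)).trans ?_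
          nlinarith [hb 0 0 0 0, hb 0 0 0 1, hb 0 0 1 0, hb 0 0 1 1, hb 0 1 0 1, hb 0 1 1 0,
            hb 0 1 1 1, hb 1 0 1 0, hb 1 0 1 1, hb 1 1 1 1]
        generalize H g = h at hHb
        have ha' : (2 : ℤ) ≤ a := by exact_mod_cast ha
        have key : ∀ u v w z : ℤ, (0 ≤ u ∧ u ≤ 16 * X) → (0 ≤ v ∧ v ≤ 16 * X) →
            (0 ≤ w ∧ w ≤ 16 * X) → (0 ≤ z ∧ z ≤ 16 * X) →
            |(2 * a - 1) * u + (6 * a - 1) * v + a * w + (3 * a + 1) * z| ≤ 192 * a * X := by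
          intro u v w z hu hv hw hz
          rw [abs_le]
          constructor <;> nlinarith
        intro i j
        rw [Matrix.adjugate_fin_two, XOf, back, R2]
        push_cast
        fin_cases i <;> fin_cases j
        · convert key _ _ _ _ (hHb 0 0 1 1) (hHb 0 1 1 1) (hHb 0 0 1 0) (hHb 0 1 1 0) using 2
          simp [Matrix.mul_apply, Fin.sum_univ_two]; ring
        · rw [← abs_neg]
          convert key _ _ _ _ (hHb 0 0 0 1) (hHb 0 1 0 1) (hHb 0 0 0 0) (hHb 0 1 0 0) using 2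
          simp [Matrix.mul_apply, Fin.sum_univ_two]; ring
        · convert key _ _ _ _ (hHb 1 0 1 1) (hHb 1 1 1 1) (hHb 1 0 1 0) (hHb 1 1 1 0) using 2
          simp [Matrix.mul_apply, Fin.sum_univ_two]; ring
        · rw [← abs_neg]
          convert key _ _ _ _ (hHb 1 0 0 1) (hHb 1 1 0 1) (hHb 1 0 0 0) (hHb 1 1 0 0) using 2
          simp [Matrix.mul_apply, Fin.sum_univ_two]; ring
      · obtain ⟨t, ht⟩ := XOf_out ha (L g)
        refine ⟨t + 2, ?_, ?_, ?_⟩
        · simp only [f]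
          rw [Function.iterate_add_apply, step_start (XOf_inF ha _), ht]
        · rintro ⟨a₂, h⟩
          simp at h
          omega
        · intro _
          simp [R2, cf]
    · intro g hg g' hg' h
      simp only [f, Prod.mk.injEq] at h
      obtain ⟨hs, hx⟩ := h
      have h2 : H g = H g' := by rw [← hL g hg, ← hL g' hg', XOf_inj ha _ _ hx]
      have e00 := congrFun (congrFun h2 0) 0
      have e01 := congrFun (congrFun h2 0) 1
      have e10 := congrFun (congrFun h2 1) 0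
      have e11 := congrFun (congrFun h2 1) 1
      simp only [H, Matrix.of_apply, Matrix.cons_val', Matrix.cons_val_zero,
        Matrix.cons_val_one, Matrix.cons_val_fin_one] at e00 e01 e10 e11
      have habs : ∀ i j, |g i j| = |g' i j| := by
        intro i j
        fin_cases i <;> fin_cases j <;> simp only [Fin.zero_eta, Fin.mk_one, Fin.isValue] <;> omega
      ext i j
      have h3 := congrFun (congrFun hs i) j
      have h4 := habs i j
      simp only [decide_eq_decide] at h3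
      rcases abs_cases (g i j) with h | h <;> rcases abs_cases (g' i j) with h' | h' <;> omega
  rw [Set.ncard_prod, Set.ncard_univ] at h1
  have h16 : Nat.card (Fin 2 → Fin 2 → Bool) = 16 := by simp
  rw [h16] at h1
  exact h1

theorem GK_ratio {a : ℕ} (ha : 1 ≤ a) : (a : ℝ) ^ 2 / 4 ≤ GK [1] / GK [a] := by
  have ha' : (1 : ℝ) ≤ a := by exact_mod_cast ha
  have h1 : GK [1] = Real.log (4 / 3) / Real.log 2 := by
    simp only [GK, cf, List.dropLast, List.getLastD, List.getLast, List.nil_append, Real.logb]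
    norm_num
  have h2 : GK [a] = Real.log (1 + 1 / (a * (a + 2))) / Real.log 2 := by
    simp only [GK, cf, List.dropLast, List.getLastD, List.getLast, List.nil_append, Real.logb]
    congr 2
    push_cast
    field_simp
    ring
  have hl2 : 0 < Real.log 2 := Real.log_pos (by norm_num)
  have hx : (0 : ℝ) < 1 / (a * (a + 2)) := by positivity
  have h3 : 0 < Real.log (1 + 1 / (a * (a + 2))) := Real.log_pos (by linarith)
  have h4 : Real.log (1 + 1 / (a * (a + 2))) ≤ 1 / (a * (a + 2)) := by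
    have := Real.log_le_sub_one_of_pos (x := 1 + 1 / (a * (a + 2))) (by linarith)
    linarith
  have h5 : 1 / 4 ≤ Real.log (4 / 3) := by
    have := Real.one_sub_inv_le_log_of_pos (x := 4 / 3) (by norm_num)
    norm_num at this ⊢
    linarith
  rw [h1, h2, div_div_div_cancel_right₀ hl2.ne', le_div_iff₀ h3]
  calc (a : ℝ) ^ 2 / 4 * Real.log (1 + 1 / (a * (a + 2)))
      ≤ (a * (a + 2)) / 4 * (1 / (a * (a + 2))) := by
        gcongr
        nlinarith
    _ = 1 / 4 := by field_simp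
    _ ≤ _ := h5

theorem main (a : ℕ) (ha : 10 ^ 15 ≤ a) :
    ¬ Tendsto (fun N : ℕ => (count N [1, a] : ℝ) / (count N [a, 1] : ℝ)) atTop
      (𝓝 (GK [1] / GK [a])) := by
  intro h
  have ha' : (10 : ℝ) ^ 15 ≤ a := by exact_mod_cast ha
  have ha0 : (0 : ℝ) < a := by linarith [show (0 : ℝ) < 10 ^ 15 by positivity]
  have hlt : (a : ℝ) ^ 2 / 8 < GK [1] / GK [a] :=
    lt_of_lt_of_le (by nlinarith [sq_pos_of_pos ha0]) (GK_ratio (by omega))
  obtain ⟨N0, hN0⟩ := eventually_atTop.mp ((h.eventually_const_lt hlt).and (eventually_ge_atTop 1))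
  set c := 1152 * a with hc
  have hstep : ∀ N ≥ N0, 1 ≤ (count N [a, 1] : ℝ) ∧
      (a : ℝ) ^ 2 / 256 * count N [a, 1] ≤ count (c * N) [a, 1] := by
    intro N hN
    have h1 := (hN0 N hN).1
    have hpos : 0 < count N [a, 1] := by
      by_contra hz
      have : count N [a, 1] = 0 := by omega
      rw [this, Nat.cast_zero, div_zero] at h1
      nlinarith [sq_pos_of_pos ha0]
    have hpos' : (0 : ℝ) < count N [a, 1] := by exact_mod_cast hpos
    refine ⟨by exact_mod_cast hpos, ?_⟩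
    rw [lt_div_iff₀ hpos'] at h1
    have h2 := count_le (a := a) (by omega) (fun M => rep1) N
    have h3 := Gs_le_count (a := a) (by omega) (6 * N)
    have e : 192 * a * (6 * N) = c * N := by rw [hc]; ring
    rw [e] at h3
    have h4 : count N [1, a] ≤ 32 * count (c * N) [a, 1] := by omega
    have h5 : (count N [1, a] : ℝ) ≤ 32 * count (c * N) [a, 1] := by exact_mod_cast h4
    linarith
  have hc1 : 1 ≤ c := by omega
  have hgrow : ∀ j : ℕ, ((a : ℝ) ^ 2 / 256) ^ j ≤ count (c ^ j * N0) [a, 1] := by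
    intro j
    induction j with
    | zero => simpa using (hstep N0 le_rfl).1
    | succ j ih =>
      have h1 := (hstep (c ^ j * N0) (Nat.le_mul_of_pos_left _ (Nat.one_le_pow _ _ hc1))).2
      rw [pow_succ' ((a : ℝ) ^ 2 / 256) j, pow_succ' c j, mul_assoc c]
      exact le_trans (mul_le_mul_of_nonneg_left ih (by positivity)) h1
  have hN1 : 1 ≤ N0 := (hN0 N0 le_rfl).2
  have hup : ∀ N, 1 ≤ N → (count N [a, 1] : ℝ) ^ 2 ≤ 4 * 2916 * 216 * (N : ℝ) ^ 3 := by
    intro N hN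
    have h2 := count_le (a := a) (by omega) (fun M => rep2) N
    have h3 := Gs_card_le (6 * N) (by omega)
    have h4 : count N [a, 1] ^ 2 ≤ 4 * 2916 * 216 * N ^ 3 := by
      calc _ ≤ (2 * (Gs (6 * N)).ncard) ^ 2 := Nat.pow_le_pow_left h2 2
        _ = 4 * (Gs (6 * N)).ncard ^ 2 := by ring
        _ ≤ 4 * (2916 * (6 * N) ^ 3) := by gcongr
        _ = _ := by ring
    exact_mod_cast h4
  obtain ⟨j, hj⟩ := ((tendsto_pow_atTop_atTop_of_one_lt (show (1 : ℝ) < 2 by norm_num)).eventually_gt_atTop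
    (4 * 2916 * 216 * (N0 : ℝ) ^ 3)).exists
  have h1 := hup (c ^ j * N0) (Nat.mul_pos (Nat.one_le_pow _ _ hc1) hN1)
  have h2 := pow_le_pow_left₀ (by positivity) (hgrow j) 2
  have hcr : (c : ℝ) = 1152 * a := by rw [hc]; push_cast; ring
  have h3 : 2 * (c : ℝ) ^ 3 ≤ ((a : ℝ) ^ 2 / 256) ^ 2 := by
    rw [hcr]
    have : (0 : ℝ) < (a : ℝ) ^ 3 := by positivity
    nlinarith
  have h4 : (2 * (c : ℝ) ^ 3) ^ j ≤ (((a : ℝ) ^ 2 / 256) ^ j) ^ 2 := by
    rw [← pow_mul, mul_comm j 2, pow_mul]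
    exact pow_le_pow_left₀ (by positivity) h3 j
  have h5 := h4.trans (h2.trans h1)
  push_cast at h5
  have hc0 : (0 : ℝ) < ((c : ℝ) ^ 3) ^ j := by
    have : (0 : ℝ) < c := by exact_mod_cast hc1
    positivity
  rw [mul_pow, mul_pow, ← pow_mul (c : ℝ) j 3, mul_comm j 3, pow_mul] at h5
  nlinarith

end Pool.Agent.MP_0a7e48_nt.H35
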